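import Mathlib

namespace Pool.Agent.Results.MP_c80912_nt.NotReflexive

open Polynomial Finset

/-- The coefficient vector of `ζ_k ^ r` in the basis `1, ζ_k, …, ζ_k^(φ(k)-1)`: the coefficients of
the remainder of `X ^ r` on division by the `k`-th cyclotomic polynomial. -/
noncomputable def expVec (k r : ℕ) : Fin (Nat.totient k) → ℤ :=
  fun j => ((X : ℤ[X]) ^ r %ₘ cyclotomic k ℤ).coeff j

/-- The set `A_k`, as a set of points of `ℝ^d`, `d = φ(k)`. -/
def A (k : ℕ) : Set (Fin (Nat.totient k) → ℝ) :=
  {x | ∃ r : ℕ, r < k ∧ x = fun j => (expVec k r j : ℝ)}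

/-- The cyclopolytope `N_k`. -/
def N (k : ℕ) : Set (Fin (Nat.totient k) → ℝ) := convexHull ℝ (A k)

/-- The polar of a subset of `ℝ^d`. -/
def polar {d : ℕ} (P : Set (Fin d → ℝ)) : Set (Fin d → ℝ) :=
  {y | ∀ x ∈ P, ∑ i, x i * y i ≤ 1}

/-- Reflexivity of a lattice polytope `P` in `ℝ^d`: the origin is an interior point of `P` (so `P` is
`d`-dimensional) and every vertex (extreme point) of the polar of `P` is an integer point. -/
def IsReflexive {d : ℕ} (P : Set (Fin d → ℝ)) : Prop :=
  (0 : Fin d → ℝ) ∈ interior P ∧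
    ∀ y ∈ (polar P).extremePoints ℝ, ∃ z : Fin d → ℤ, ∀ i, y i = (z i : ℝ)

/-- shift operator on sequences -/
noncomputable def E : Module.End ℂ (ℕ → ℂ) := LinearMap.funLeft ℂ ℂ Nat.succ

lemma E_pow (i : ℕ) (f : ℕ → ℂ) (r : ℕ) : (E ^ i) f r = f (r + i) := by
  induction i generalizing r with
  | zero => simp
  | succ i ih =>
    rw [pow_succ', Module.End.mul_apply]
    change (E ^ i) f (r + 1) = _
    rw [ih]; congr 1; ring

lemma aeval_E (P : ℂ[X]) (f : ℕ → ℂ) (r : ℕ) :
    (aeval E P) f r = ∑ i ∈ range (P.natDegree + 1), P.coeff i * f (r + i) := by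
  rw [aeval_eq_sum_range, LinearMap.sum_apply, Finset.sum_apply]
  refine Finset.sum_congr rfl ?_
  intro i _
  rw [LinearMap.smul_apply, Pi.smul_apply, E_pow, smul_eq_mul]

/-- annihilator ideal -/
noncomputable def annIdeal (f : ℕ → ℂ) : Ideal ℂ[X] where
  carrier := {P | (aeval E P) f = 0}
  add_mem' := by
    intro a b ha hb
    simp only [Set.mem_ofPred_eq] at *
    rw [map_add, LinearMap.add_apply, ha, hb, add_zero]
  zero_mem' := by simp
  smul_mem' := by
    intro c x hx
    simp only [Set.mem_ofPred_eq, smul_eq_mul] at *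
    rw [map_mul, Module.End.mul_apply, hx, map_zero]

lemma cyclotomic_mem (k : ℕ) (hk : 0 < k) (f : ℕ → ℂ) (hper : ∀ r, f (r + k) = f r)
    (hline : ∀ q, q.Prime → q ∣ k → ∀ r, ∑ j ∈ range q, f (r + j * (k / q)) = 0) :
    (aeval E (cyclotomic k ℂ)) f = 0 := by
  have h1 : (X ^ k - 1 : ℂ[X]) ∈ annIdeal f := by
    change (aeval E (X ^ k - 1 : ℂ[X])) f = 0
    ext r
    simp only [map_sub, map_pow, aeval_X, map_one, LinearMap.sub_apply, Pi.sub_apply,
      Module.End.one_apply, Pi.zero_apply]
    rw [E_pow, hper, sub_self]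
  have h2 : ∀ q, q.Prime → q ∣ k → (∑ j ∈ range q, X ^ (j * (k / q)) : ℂ[X]) ∈ annIdeal f := by
    intro q hq hqk
    change (aeval E (∑ j ∈ range q, X ^ (j * (k / q)) : ℂ[X])) f = 0
    ext r
    simp only [map_sum, map_pow, aeval_X, LinearMap.sum_apply, Finset.sum_apply, Pi.zero_apply,
      E_pow]
    exact hline q hq hqk r
  obtain ⟨g, hg⟩ := (IsPrincipalIdealRing.principal (annIdeal f)).principal
  have hdvd : ∀ P : ℂ[X], P ∈ annIdeal f ↔ g ∣ P := by
    intro P
    rw [hg]
    exact Ideal.mem_span_singleton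
  have h3 := (hdvd _).mp h1
  rw [← prod_cyclotomic_eq_X_pow_sub_one hk, ← Nat.cons_self_properDivisors hk.ne',
    Finset.prod_cons] at h3
  have hcop : IsCoprime g (∏ i ∈ k.properDivisors, cyclotomic i ℂ) := by
    refine (Polynomial.isCoprime_iff_aeval_ne_zero_of_isAlgClosed (k := ℂ) ℂ _ _).mpr ?_
    intro a
    by_contra hcon
    push Not at hcon
    obtain ⟨hga, hpa⟩ := hcon
    rw [map_prod, Finset.prod_eq_zero_iff] at hpa
    obtain ⟨d, hd, hda⟩ := hpa
    rw [Nat.mem_properDivisors] at hd
    have hd0 : 0 < d := Nat.pos_of_dvd_of_pos hd.1 hk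
    have ha : a ^ d = 1 := by
      have : (cyclotomic d ℂ) ∣ X ^ d - 1 := cyclotomic.dvd_X_pow_sub_one d ℂ
      obtain ⟨u, hu⟩ := this
      have h4 : aeval a (X ^ d - 1 : ℂ[X]) = 0 := by rw [hu, map_mul, hda, zero_mul]
      simpa [sub_eq_zero] using h4
    obtain ⟨e, he⟩ := hd.1
    have he1 : e ≠ 1 := by rintro rfl; omega
    obtain ⟨q, hq, hqe⟩ := Nat.exists_prime_and_dvd he1
    obtain ⟨e', he'⟩ := hqe
    have hqk : q ∣ k := ⟨d * e', by rw [he, he']; ring⟩
    have hkq : k / q = d * e' := by
      rw [he, he']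
      rw [show d * (q * e') = q * (d * e') by ring]
      exact Nat.mul_div_cancel_left _ hq.pos
    obtain ⟨v, hv⟩ := (hdvd _).mp (h2 q hq hqk)
    have h5 : aeval a (∑ j ∈ range q, X ^ (j * (k / q)) : ℂ[X]) = 0 := by
      rw [hv, map_mul, hga, zero_mul]
    have h6 : ∀ j, a ^ (j * (k / q)) = 1 := by
      intro j
      rw [hkq, show j * (d * e') = d * (j * e') by ring, pow_mul, ha, one_pow]
    simp [h6] at h5
    exact hq.ne_zero h5
  have h7 : g ∣ cyclotomic k ℂ := hcop.dvd_of_dvd_mul_right h3
  exact (hdvd _).mpr h7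

lemma functional (k : ℕ) (f : ℕ → ℂ) (hf : (aeval E (cyclotomic k ℂ)) f = 0) (r : ℕ) :
    ∑ j : Fin (Nat.totient k), (expVec k r j : ℂ) * f j = f r := by
  have hmonic : (cyclotomic k ℤ).Monic := cyclotomic.monic k ℤ
  have h1 := modByMonic_add_div ((X : ℤ[X]) ^ r) (q := cyclotomic k ℤ)
  have h2 : ((X : ℤ[X]) ^ r %ₘ cyclotomic k ℤ).map (Int.castRingHom ℂ)
      + cyclotomic k ℂ * ((X : ℤ[X]) ^ r /ₘ cyclotomic k ℤ).map (Int.castRingHom ℂ) = X ^ r := by
    have := congrArg (Polynomial.map (Int.castRingHom ℂ)) h1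
    rw [Polynomial.map_add, Polynomial.map_mul, map_cyclotomic, Polynomial.map_pow, map_X] at this
    exact this
  have h3 := congrArg (fun P => (aeval E P) f 0) h2
  simp only [map_add, map_pow, aeval_X, LinearMap.add_apply, Pi.add_apply] at h3
  rw [E_pow, mul_comm, map_mul, Module.End.mul_apply, hf, map_zero] at h3
  simp only [Pi.zero_apply, add_zero, zero_add] at h3
  rw [← h3, aeval_E]
  set R := ((X : ℤ[X]) ^ r %ₘ cyclotomic k ℤ) with hR
  have hdeg : R.degree < (Nat.totient k : ℕ) := by
    have := degree_modByMonic_lt ((X : ℤ[X]) ^ r) hmonic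
    rwa [degree_cyclotomic] at this
  change ∑ j : Fin (Nat.totient k), ((R.coeff (j : ℕ) : ℤ) : ℂ) * f (j : ℕ) = _
  rw [Fin.sum_univ_eq_sum_range (fun j => ((R.coeff j : ℤ) : ℂ) * f j) (Nat.totient k)]
  have hcoeff : ∀ i, (R.map (Int.castRingHom ℂ)).coeff i = ((R.coeff i : ℤ) : ℂ) := by
    intro i; rw [coeff_map]; rfl
  simp_rw [hcoeff, zero_add]
  -- both sums equal the sum over a common range
  have e1 : ∀ N, Nat.totient k ≤ N →
      ∑ j ∈ range (Nat.totient k), ((R.coeff j : ℤ) : ℂ) * f j
        = ∑ j ∈ range N, ((R.coeff j : ℤ) : ℂ) * f j := by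
    intro N hN
    refine Finset.sum_subset (Finset.range_subset_range.mpr hN) ?_
    intro i _ hi
    have : R.coeff i = 0 := by
      apply coeff_eq_zero_of_degree_lt
      refine lt_of_lt_of_le hdeg ?_
      have : Nat.totient k ≤ i := by simpa using hi
      exact_mod_cast this
    rw [this]; simp
  have e2 : ∀ N, (R.map (Int.castRingHom ℂ)).natDegree + 1 ≤ N →
      ∑ j ∈ range ((R.map (Int.castRingHom ℂ)).natDegree + 1), ((R.coeff j : ℤ) : ℂ) * f j
        = ∑ j ∈ range N, ((R.coeff j : ℤ) : ℂ) * f j := by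
    intro N hN
    refine Finset.sum_subset (Finset.range_subset_range.mpr hN) ?_
    intro i _ hi
    have : ((R.coeff i : ℤ) : ℂ) = 0 := by
      rw [← hcoeff]
      apply coeff_eq_zero_of_natDegree_lt
      have : (R.map (Int.castRingHom ℂ)).natDegree + 1 ≤ i := by simpa using hi
      omega
    rw [this]; simp
  rw [e1 _ (le_max_left _ ((R.map (Int.castRingHom ℂ)).natDegree + 1)),
    e2 _ (le_max_right (Nat.totient k) _)]

/-- line relation for the functional attached to a point -/
lemma line_rel (k q : ℕ) (hk : 0 < k) (hq : q.Prime) (hqk : q ∣ k) (y : Fin (Nat.totient k) → ℝ)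
    (r : ℕ) : ∑ j ∈ range q, ∑ i, (expVec k (r + j * (k / q)) i : ℝ) * y i = 0 := by
  have hζ := Complex.isPrimitiveRoot_exp k hk.ne'
  set ζ := Complex.exp (2 * Real.pi * Complex.I / k) with hζdef
  have hdvd : cyclotomic k ℤ ∣ ∑ j ∈ range q, (X : ℤ[X]) ^ (r + j * (k / q)) := by
    rw [cyclotomic_eq_minpoly hζ hk]
    apply minpoly.isIntegrallyClosed_dvd (hζ.isIntegral hk)
    rw [map_sum]
    simp only [map_pow, aeval_X]
    have hprim : IsPrimitiveRoot (ζ ^ (k / q)) q := by
      apply hζ.pow hk
      exact (Nat.div_mul_cancel hqk).symm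
    have h1 : ∀ j, ζ ^ (r + j * (k / q)) = ζ ^ r * (ζ ^ (k / q)) ^ j := by
      intro j; rw [pow_add, mul_comm j, pow_mul]
    simp_rw [h1]
    rw [← Finset.mul_sum, hprim.geom_sum_eq_zero hq.one_lt, mul_zero]
  have h2 : ∑ j ∈ range q, ((X : ℤ[X]) ^ (r + j * (k / q)) %ₘ cyclotomic k ℤ) = 0 := by
    have h3 := (modByMonic_eq_zero_iff_dvd (cyclotomic.monic k ℤ)).mpr hdvd
    have h4 : ∀ s : Finset ℕ, (∑ j ∈ s, (X : ℤ[X]) ^ (r + j * (k / q))) %ₘ cyclotomic k ℤ
        = ∑ j ∈ s, ((X : ℤ[X]) ^ (r + j * (k / q)) %ₘ cyclotomic k ℤ) := by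
      intro s
      induction s using Finset.induction_on with
      | empty => simp
      | insert a s ha ih => rw [Finset.sum_insert ha, Finset.sum_insert ha, add_modByMonic, ih]
    rw [← h4, h3]
  rw [Finset.sum_comm]
  refine Finset.sum_eq_zero ?_
  intro i _
  rw [← Finset.sum_mul]
  have h5 : ∑ j ∈ range q, (expVec k (r + j * (k / q)) i : ℝ) = 0 := by
    have h6 := congrArg (fun P => P.coeff (i : ℕ)) h2
    simp only [finsetSum_coeff, coeff_zero] at h6
    have h7 : ((∑ j ∈ range q, expVec k (r + j * (k / q)) i : ℤ) : ℝ) = 0 := by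
      rw [show (∑ j ∈ range q, expVec k (r + j * (k / q)) i) = 0 from h6]; simp
    rw [← h7]; push_cast; rfl
  rw [h5, zero_mul]

/-- twice the values of the vertex, as a list of length 105 -/
def vals : List ℤ := [2, 2, -4, -3, 2, 0, 2, 2, 2, -2, 2, -4, 2, 2, 2, 2, 0, -1, 2, -2, 2, 0, -2, 2, 2, -4, 2, 1, -1, -2, 2, -4, 2, 2, 0, -3, -4, 2, 2, -2, 2, 2, -3, -4, 2, -3, 2, 2, 2, -4, -4, 2, -1, 0, 2, 1, -2, 0, 2, -4, 2, 2, -2, -1, 2, 2, 2, 2, -4, -2, 1, 2, 2, 1, 0, -2, -4, 1, 2, 0, 1, 2, -4, -4, 2, 2, -2, 2, -2, 0, -3, 2, 2, -4, 2, 2, -4, 1, 2, 0, -4, 2, -4, 2, 2]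

def F2 (r : ℕ) : ℤ := vals.getD (r % 105) 0

lemma F2_line (q : ℕ) (hq : q = 3 ∨ q = 5 ∨ q = 7) (r : ℕ) :
    ∑ j ∈ range q, F2 (r + j * (105 / q)) = 0 := by
  have h1 : ∀ j, F2 (r + j * (105 / q)) = F2 (r % 105 + j * (105 / q)) := by
    intro j; unfold F2; rw [Nat.mod_add_mod]
  simp_rw [h1]
  have h2 : r % 105 < 105 := Nat.mod_lt _ (by norm_num)
  generalize r % 105 = s at h2
  rcases hq with rfl | rfl | rfl
  · revert s; decide
  · revert s; decide
  · revert s; decide

lemma totient105 : Nat.totient 105 = 48 := by decide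

lemma f_functional (r : ℕ) :
    ∑ j : Fin (Nat.totient 105), (expVec 105 r j : ℝ) * ((F2 j : ℝ) / 2) = (F2 r : ℝ) / 2 := by
  have hf : (aeval E (cyclotomic 105 ℂ)) (fun r => ((F2 r : ℂ) / 2)) = 0 := by
    apply cyclotomic_mem 105 (by norm_num)
    · intro r
      have : F2 (r + 105) = F2 r := by unfold F2; rw [Nat.add_mod_right]
      rw [this]
    · intro q hq hqk r
      have hq' : q = 3 ∨ q = 5 ∨ q = 7 := by
        have : q ∈ Nat.primeFactors 105 := Nat.mem_primeFactors.mpr ⟨hq, hqk, by norm_num⟩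
        have h2 : Nat.primeFactors 105 = {3, 5, 7} := by decide +kernel
        rw [h2] at this
        simpa using this
      have := F2_line q hq' r
      rw [← Finset.sum_div]
      have h3 : (∑ j ∈ range q, (F2 (r + j * (105 / q)) : ℂ)) = 0 := by exact_mod_cast this
      rw [h3, zero_div]
  have := functional 105 _ hf r
  have h2 : ((∑ j : Fin (Nat.totient 105), (expVec 105 r j : ℝ) * ((F2 j : ℝ) / 2) : ℝ) : ℂ)
      = (((F2 r : ℝ) / 2 : ℝ) : ℂ) := by
    push_cast
    exact this
  exact_mod_cast h2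

/-- the linear algebra certificate -/
lemma rigid (u : ℕ → ℝ) (h3 : ∀ r, u r + u (r + 35) + u (r + 70) = 0)
    (h5 : ∀ r, u r + u (r + 21) + u (r + 42) + u (r + 63) + u (r + 84) = 0)
    (h7 : ∀ r, u r + u (r + 15) + u (r + 30) + u (r + 45) + u (r + 60) + u (r + 75) + u (r + 90) = 0)
    (hT : ∀ r, r < 105 → F2 r = 2 → u r = 0) : ∀ r, r < 105 → u r = 0 := by
  have z0 : u 0 = 0 := hT 0 (by norm_num) (by decide)
  have z1 : u 1 = 0 := hT 1 (by norm_num) (by decide)
  have z4 : u 4 = 0 := hT 4 (by norm_num) (by decide)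
  have z6 : u 6 = 0 := hT 6 (by norm_num) (by decide)
  have z7 : u 7 = 0 := hT 7 (by norm_num) (by decide)
  have z8 : u 8 = 0 := hT 8 (by norm_num) (by decide)
  have z10 : u 10 = 0 := hT 10 (by norm_num) (by decide)
  have z12 : u 12 = 0 := hT 12 (by norm_num) (by decide)
  have z13 : u 13 = 0 := hT 13 (by norm_num) (by decide)
  have z14 : u 14 = 0 := hT 14 (by norm_num) (by decide)
  have z15 : u 15 = 0 := hT 15 (by norm_num) (by decide)
  have z18 : u 18 = 0 := hT 18 (by norm_num) (by decide)
  have z20 : u 20 = 0 := hT 20 (by norm_num) (by decide)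
  have z23 : u 23 = 0 := hT 23 (by norm_num) (by decide)
  have z24 : u 24 = 0 := hT 24 (by norm_num) (by decide)
  have z26 : u 26 = 0 := hT 26 (by norm_num) (by decide)
  have z30 : u 30 = 0 := hT 30 (by norm_num) (by decide)
  have z32 : u 32 = 0 := hT 32 (by norm_num) (by decide)
  have z33 : u 33 = 0 := hT 33 (by norm_num) (by decide)
  have z37 : u 37 = 0 := hT 37 (by norm_num) (by decide)
  have z38 : u 38 = 0 := hT 38 (by norm_num) (by decide)
  have z40 : u 40 = 0 := hT 40 (by norm_num) (by decide)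
  have z41 : u 41 = 0 := hT 41 (by norm_num) (by decide)
  have z44 : u 44 = 0 := hT 44 (by norm_num) (by decide)
  have z46 : u 46 = 0 := hT 46 (by norm_num) (by decide)
  have z47 : u 47 = 0 := hT 47 (by norm_num) (by decide)
  have z48 : u 48 = 0 := hT 48 (by norm_num) (by decide)
  have z51 : u 51 = 0 := hT 51 (by norm_num) (by decide)
  have z54 : u 54 = 0 := hT 54 (by norm_num) (by decide)
  have z58 : u 58 = 0 := hT 58 (by norm_num) (by decide)
  have z60 : u 60 = 0 := hT 60 (by norm_num) (by decide)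
  have z61 : u 61 = 0 := hT 61 (by norm_num) (by decide)
  have z64 : u 64 = 0 := hT 64 (by norm_num) (by decide)
  have z65 : u 65 = 0 := hT 65 (by norm_num) (by decide)
  have z66 : u 66 = 0 := hT 66 (by norm_num) (by decide)
  have z67 : u 67 = 0 := hT 67 (by norm_num) (by decide)
  have z71 : u 71 = 0 := hT 71 (by norm_num) (by decide)
  have z72 : u 72 = 0 := hT 72 (by norm_num) (by decide)
  have z78 : u 78 = 0 := hT 78 (by norm_num) (by decide)
  have z81 : u 81 = 0 := hT 81 (by norm_num) (by decide)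
  have z84 : u 84 = 0 := hT 84 (by norm_num) (by decide)
  have z85 : u 85 = 0 := hT 85 (by norm_num) (by decide)
  have z87 : u 87 = 0 := hT 87 (by norm_num) (by decide)
  have z91 : u 91 = 0 := hT 91 (by norm_num) (by decide)
  have z92 : u 92 = 0 := hT 92 (by norm_num) (by decide)
  have z94 : u 94 = 0 := hT 94 (by norm_num) (by decide)
  have z95 : u 95 = 0 := hT 95 (by norm_num) (by decide)
  have z98 : u 98 = 0 := hT 98 (by norm_num) (by decide)
  have z101 : u 101 = 0 := hT 101 (by norm_num) (by decide)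
  have z103 : u 103 = 0 := hT 103 (by norm_num) (by decide)
  have z104 : u 104 = 0 := hT 104 (by norm_num) (by decide)

  have z36 : u 36 = 0 := by have := h3 1; norm_num [z1, z71] at this; exact this
  have z2 : u 2 = 0 := by have := h3 2; norm_num [z37, z72] at this; exact this
  have z76 : u 76 = 0 := by have := h3 6; norm_num [z6, z41] at this; exact this
  have z43 : u 43 = 0 := by have := h3 8; norm_num [z8, z78] at this; exact this
  have z11 : u 11 = 0 := by have := h3 11; norm_num [z46, z81] at this; exact this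
  have z82 : u 82 = 0 := by have := h3 12; norm_num [z12, z47] at this; exact this
  have z83 : u 83 = 0 := by have := h3 13; norm_num [z13, z48] at this; exact this
  have z49 : u 49 = 0 := by have := h3 14; norm_num [z14, z84] at this; exact this
  have z50 : u 50 = 0 := by have := h3 15; norm_num [z15, z85] at this; exact this
  have z93 : u 93 = 0 := by have := h3 23; norm_num [z23, z58] at this; exact this
  have z59 : u 59 = 0 := by have := h3 24; norm_num [z24, z94] at this; exact this
  have z25 : u 25 = 0 := by have := h3 25; norm_num [z60, z95] at this; exact this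
  have z96 : u 96 = 0 := by have := h3 26; norm_num [z26, z61] at this; exact this
  have z100 : u 100 = 0 := by have := h3 30; norm_num [z30, z65] at this; exact this
  have z31 : u 31 = 0 := by have := h3 31; norm_num [z66, z101] at this; exact this
  have z102 : u 102 = 0 := by have := h3 32; norm_num [z32, z67] at this; exact this
  have z68 : u 68 = 0 := by have := h3 33; norm_num [z33, z103] at this; exact this
  have z22 : u 22 = 0 := by have := h5 1; norm_num [z1, z43, z64, z85] at this; exact this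
  have z86 : u 86 = 0 := by have := h5 2; norm_num [z2, z23, z44, z65] at this; exact this
  have z88 : u 88 = 0 := by have := h5 4; norm_num [z4, z25, z46, z67] at this; exact this
  have z29 : u 29 = 0 := by have := h5 8; norm_num [z8, z50, z71, z92] at this; exact this
  have z9 : u 9 = 0 := by have := h5 9; norm_num [z30, z51, z72, z93] at this; exact this
  have z75 : u 75 = 0 := by have := h5 12; norm_num [z12, z33, z54, z96] at this; exact this
  have z39 : u 39 = 0 := by have := h5 18; norm_num [z18, z60, z81, z102] at this; exact this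
  have z19 : u 19 = 0 := by have := h5 19; norm_num [z40, z61, z82, z103] at this; exact this
  have z62 : u 62 = 0 := by have := h5 20; norm_num [z20, z41, z83, z104] at this; exact this
  have z16 : u 16 = 0 := by have := h7 1; norm_num [z1, z31, z46, z61, z76, z91] at this; exact this
  have z21 : u 21 = 0 := by have := h7 6; norm_num [z6, z36, z51, z66, z81, z96] at this; exact this
  have z53 : u 53 = 0 := by have := h7 8; norm_num [z8, z23, z38, z68, z83, z98] at this; exact this
  have z56 : u 56 = 0 := by have := h7 11; norm_num [z11, z26, z41, z71, z86, z101] at this; exact this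
  have z74 : u 74 = 0 := by have := h3 4; norm_num [z4, z39] at this; exact this
  have z5 : u 5 = 0 := by have := h3 5; norm_num [z40, z75] at this; exact this
  have z79 : u 79 = 0 := by have := h3 9; norm_num [z9, z44] at this; exact this
  have z89 : u 89 = 0 := by have := h3 19; norm_num [z19, z54] at this; exact this
  have z57 : u 57 = 0 := by have := h3 22; norm_num [z22, z92] at this; exact this
  have z99 : u 99 = 0 := by have := h3 29; norm_num [z29, z64] at this; exact this
  have z34 : u 34 = 0 := by have := h7 4; norm_num [z4, z19, z49, z64, z79, z94] at this; exact this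
  have z69 : u 69 = 0 := by have := h7 9; norm_num [z9, z24, z39, z54, z84, z99] at this; exact this
  have c3_3 : u 3 + u 73 = 0 := by have := h3 3; norm_num [z38] at this; linarith
  have c3_7 : u 42 + u 77 = 0 := by have := h3 7; norm_num [z7] at this; linarith
  have c3_17 : u 17 + u 52 = 0 := by have := h3 17; norm_num [z87] at this; linarith
  have c5_0 : u 42 + u 63 = 0 := by have := h5 0; norm_num [z0, z21, z84] at this; linarith
  have c5_10 : u 52 + u 73 = 0 := by have := h5 10; norm_num [z10, z31, z94] at this; linarith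
  have c7_2 : u 17 + u 77 = 0 := by have := h7 2; norm_num [z2, z32, z47, z62, z92] at this; linarith
  have c7_3 : u 3 + u 63 = 0 := by have := h7 3; norm_num [z18, z33, z48, z78, z93] at this; linarith
  have z3 : u 3 = 0 := by linarith [c3_3, c3_7, c3_17, c5_0, c5_10, c7_2, c7_3]
  have z73 : u 73 = 0 := by have := h3 3; norm_num [z3, z38] at this; exact this
  have z45 : u 45 = 0 := by have := h5 3; norm_num [z3, z24, z66, z87] at this; exact this
  have z52 : u 52 = 0 := by have := h5 10; norm_num [z10, z31, z73, z94] at this; exact this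
  have z90 : u 90 = 0 := by have := h7 0; norm_num [z0, z15, z30, z45, z60, z75] at this; exact this
  have z63 : u 63 = 0 := by have := h7 3; norm_num [z3, z18, z33, z48, z78, z93] at this; exact this
  have z97 : u 97 = 0 := by have := h7 7; norm_num [z7, z22, z37, z52, z67, z82] at this; exact this
  have z28 : u 28 = 0 := by have := h7 13; norm_num [z13, z43, z58, z73, z88, z103] at this; exact this
  have z80 : u 80 = 0 := by have := h3 10; norm_num [z10, z45] at this; exact this
  have z17 : u 17 = 0 := by have := h3 17; norm_num [z52, z87] at this; exact this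
  have z55 : u 55 = 0 := by have := h3 20; norm_num [z20, z90] at this; exact this
  have z27 : u 27 = 0 := by have := h3 27; norm_num [z62, z97] at this; exact this
  have z42 : u 42 = 0 := by have := h5 0; norm_num [z0, z21, z63, z84] at this; exact this
  have z70 : u 70 = 0 := by have := h5 7; norm_num [z7, z28, z49, z91] at this; exact this
  have z77 : u 77 = 0 := by have := h7 2; norm_num [z2, z17, z32, z47, z62, z92] at this; exact this
  have z35 : u 35 = 0 := by have := h7 5; norm_num [z5, z20, z50, z65, z80, z95] at this; exact this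
  intro r hr
  interval_cases r <;> assumption

/-- the vertex -/
noncomputable def y0 : Fin (Nat.totient 105) → ℝ := fun j => (F2 j : ℝ) / 2

lemma mem_polar_iff (y : Fin (Nat.totient 105) → ℝ) :
    y ∈ polar (N 105) ↔ ∀ r, r < 105 → ∑ i, (expVec 105 r i : ℝ) * y i ≤ 1 := by
  constructor
  · intro hy r hr
    exact hy _ (subset_convexHull ℝ _ ⟨r, hr, rfl⟩)
  · intro h x hx
    have hconv : Convex ℝ {x : Fin (Nat.totient 105) → ℝ | ∑ i, x i * y i ≤ 1} := by
      apply convex_halfSpace_le
      constructor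
      · intro a b
        simp only [Pi.add_apply, add_mul, Finset.sum_add_distrib]
      · intro c a
        simp only [Pi.smul_apply, smul_eq_mul, Finset.mul_sum, mul_assoc]
    have hsub : A 105 ⊆ {x : Fin (Nat.totient 105) → ℝ | ∑ i, x i * y i ≤ 1} := by
      rintro _ ⟨r, hr, rfl⟩
      exact h r hr
    exact convexHull_min hsub hconv hx

lemma F2_le (r : ℕ) : F2 r ≤ 2 := by
  unfold F2
  have h2 : r % 105 < 105 := Nat.mod_lt _ (by norm_num)
  generalize r % 105 = s at h2
  revert s; decide

lemma y0_mem : y0 ∈ polar (N 105) := by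
  rw [mem_polar_iff]
  intro r _
  have := f_functional r
  unfold y0
  rw [this]
  have h : (F2 r : ℝ) ≤ 2 := by exact_mod_cast F2_le r
  linarith

lemma expVec_small (r : ℕ) (hr : r < Nat.totient 105) (j : Fin (Nat.totient 105)) :
    expVec 105 r j = if (j : ℕ) = r then 1 else 0 := by
  unfold expVec
  rw [(modByMonic_eq_self_iff (cyclotomic.monic 105 ℤ)).mpr]
  · rw [coeff_X_pow]
  · rw [degree_cyclotomic, degree_X_pow]
    exact_mod_cast hr

lemma endpoint_eq (y : Fin (Nat.totient 105) → ℝ) (hy : y ∈ polar (N 105))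
    (z : Fin (Nat.totient 105) → ℝ) (hz : z ∈ polar (N 105))
    (h : y0 ∈ openSegment ℝ y z) : y = y0 := by
  obtain ⟨a, b, ha, hb, hab, hy0⟩ := h
  rw [mem_polar_iff] at hy hz
  set u : ℕ → ℝ := fun r => ∑ i, (expVec 105 r i : ℝ) * (y i - y0 i) with hu
  have hT : ∀ r, r < 105 → F2 r = 2 → u r = 0 := by
    intro r hr hF
    have h1 : ∑ i, (expVec 105 r i : ℝ) * y0 i = 1 := by
      have := f_functional r
      rw [hF] at this
      unfold y0
      rw [this]; norm_num
    have h2 := hy r hr
    have h3 := hz r hr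
    have h4 : ∑ i, (expVec 105 r i : ℝ) * y0 i
        = a * ∑ i, (expVec 105 r i : ℝ) * y i + b * ∑ i, (expVec 105 r i : ℝ) * z i := by
      rw [Finset.mul_sum, Finset.mul_sum, ← Finset.sum_add_distrib]
      refine Finset.sum_congr rfl ?_
      intro i _
      have := congrFun hy0 i
      simp only [Pi.add_apply, Pi.smul_apply, smul_eq_mul] at this
      rw [← this]; ring
    have h5 : ∑ i, (expVec 105 r i : ℝ) * y i = 1 := by
      rw [h1] at h4
      nlinarith
    simp only [hu, mul_sub, Finset.sum_sub_distrib]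
    rw [h5, h1, sub_self]
  have hline := fun (q : ℕ) (hq : q.Prime) (hqk : q ∣ 105) (r : ℕ) =>
    line_rel 105 q (by norm_num) hq hqk (fun i => y i - y0 i) r
  have h3 : ∀ r, u r + u (r + 35) + u (r + 70) = 0 := by
    intro r
    have := hline 3 (by norm_num) (by norm_num) r
    simpa [Finset.sum_range_succ] using this
  have h5 : ∀ r, u r + u (r + 21) + u (r + 42) + u (r + 63) + u (r + 84) = 0 := by
    intro r
    have := hline 5 (by norm_num) (by norm_num) r
    simpa [Finset.sum_range_succ] using this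
  have h7 : ∀ r, u r + u (r + 15) + u (r + 30) + u (r + 45) + u (r + 60) + u (r + 75)
      + u (r + 90) = 0 := by
    intro r
    have := hline 7 (by norm_num) (by norm_num) r
    simpa [Finset.sum_range_succ] using this
  have hu0 := rigid u h3 h5 h7 hT
  ext j
  have hj : (j : ℕ) < 105 := lt_of_lt_of_le j.2 (by rw [totient105]; norm_num)
  have := hu0 j hj
  simp only [hu] at this
  simp_rw [expVec_small (j : ℕ) j.2] at this
  have h8 : ∀ i : Fin (Nat.totient 105), ((i : ℕ) = (j : ℕ)) ↔ i = j := fun i => Fin.ext_iff.symm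
  simp only [h8] at this
  simp at this
  linarith

/-- The cyclopolytope `N_105` is not reflexive. -/
theorem result : ¬ IsReflexive (N 105) := by
  rintro ⟨_, h⟩
  have hext : y0 ∈ (polar (N 105)).extremePoints ℝ := by
    rw [mem_extremePoints]
    refine ⟨y0_mem, ?_⟩
    intro x₁ hx₁ x₂ hx₂ hx
    refine ⟨endpoint_eq x₁ hx₁ x₂ hx₂ hx, endpoint_eq x₂ hx₂ x₁ hx₁ ?_⟩
    rw [openSegment_symm]; exact hx
  obtain ⟨z, hz⟩ := h y0 hext
  have h3 : (3 : ℕ) < Nat.totient 105 := by rw [totient105]; norm_num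
  have := hz ⟨3, h3⟩
  unfold y0 at this
  have hv : F2 3 = -3 := by decide
  simp only [hv] at this
  have h4 : (-3 : ℝ) = 2 * (z ⟨3, h3⟩ : ℝ) := by
    push_cast at this
    linarith
  have h5 : (-3 : ℤ) = 2 * z ⟨3, h3⟩ := by exact_mod_cast h4
  omega

end Pool.Agent.Results.MP_c80912_nt.NotReflexive
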